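import Pool.Agent.H38.SE.TarA

/-! # Part A, row AG: reals -/

set_option linter.unusedVariables false

open Ordinal Order Set
open scoped ZFSet

namespace SE.H35AG

open SF SE

theorem nS_mem_nS {m n : ℕ} : nS m ∈ nS n ↔ m < n := by
  unfold nS
  rw [Ordinal.toZFSet_mem_toZFSet_iff]
  exact Nat.cast_lt

theorem mem_nS {n : ℕ} {x : V} : x ∈ nS n ↔ ∃ j < n, x = nS j := by
  constructor
  · intro h
    obtain ⟨a, ha, rfl⟩ := Ordinal.mem_toZFSet_iff.1 h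
    obtain ⟨j, rfl⟩ := Ordinal.lt_omega0.1 (ha.trans (Ordinal.natCast_lt_omega0 n))
    exact ⟨j, by exact_mod_cast ha, rfl⟩
  · rintro ⟨j, hj, rfl⟩
    exact nS_mem_nS.2 hj

theorem nS_om (n : ℕ) : nS n ∈ om := mem_om.2 ⟨n, rfl⟩

theorem nS_sub (n : ℕ) : nS n ⊆ om := by
  intro x hx
  obtain ⟨j, -, rfl⟩ := mem_nS.1 hx
  exact nS_om j

theorem pair_mem_rs {x n a c : V} : ZFSet.pair a c ∈ rs x n ↔ ZFSet.pair a c ∈ x ∧ a ∈ n := by
  unfold rs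
  rw [ZFSet.mem_sep, fst_pair]

theorem isFunc_rs {x : V} (hx : Rl x) (n : ℕ) : Sq n (rs x (nS n)) := by
  constructor
  · intro z hz
    have h1 : z ∈ x := (ZFSet.mem_sep.1 hz).1
    have h2 := (ZFSet.mem_sep.1 hz).2
    obtain ⟨a, ha, c, hc, rfl⟩ := ZFSet.mem_prod.1 (hx.1 h1)
    rw [fst_pair] at h2
    exact ZFSet.pair_mem_prod.2 ⟨h2, hc⟩
  · intro z hz
    obtain ⟨w, hw, hw2⟩ := hx.2 z (nS_sub n hz)
    exact ⟨w, pair_mem_rs.2 ⟨hw, hz⟩, fun u hu => hw2 u (pair_mem_rs.1 hu).1⟩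

theorem dm_func {a b f : V} (h : ZFSet.IsFunc a b f) : dm f = a := by
  ext x
  rw [mem_dm]
  constructor
  · rintro ⟨y, hy⟩
    exact (ZFSet.pair_mem_prod.1 (h.1 hy)).1
  · intro hx
    obtain ⟨w, hw, -⟩ := h.2 x hx
    exact ⟨w, hw⟩

theorem sub_iff {x b : V} {n : ℕ} (hx : Rl x) (hb : Sq n b) : b ⊆ x ↔ b = rs x (nS n) := by
  constructor
  · intro hbx
    ext z
    constructor
    · intro hz
      obtain ⟨a, ha, c, hc, rfl⟩ := ZFSet.mem_prod.1 (hb.1 hz)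
      exact pair_mem_rs.2 ⟨hbx hz, ha⟩
    · intro hz
      have h1 : z ∈ x := (ZFSet.mem_sep.1 hz).1
      obtain ⟨a, ha, c, hc, rfl⟩ := ZFSet.mem_prod.1 (hx.1 h1)
      have h2 := (pair_mem_rs.1 hz).2
      have h3 := pair_app_mem hb h2
      have h4 := svl_of_isFunc hx _ _ _ h1 (hbx h3)
      rw [h4]; exact h3
  · intro h
    rw [h]
    intro z hz
    exact (ZFSet.mem_sep.1 hz).1

theorem ext_app {x y : V} (hx : Rl x) (hy : Rl y) (h : ∀ n : ℕ, app x (nS n) = app y (nS n)) :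
    x = y := by
  have key : ∀ x y : V, Rl x → Rl y → (∀ n : ℕ, app x (nS n) = app y (nS n)) → x ⊆ y := by
    intro x y hx hy h z hz
    obtain ⟨a, ha, c, hc, rfl⟩ := ZFSet.mem_prod.1 (hx.1 hz)
    obtain ⟨n, rfl⟩ := mem_om.1 ha
    have h1 := app_eq (svl_of_isFunc hx) hz
    rw [← h1, h n]
    exact pair_app_mem hy ha
  ext z
  exact ⟨fun hz => key x y hx hy h hz, fun hz => key y x hy hx (fun n => (h n).symm) hz⟩

theorem app_rs {x : V} (hx : Rl x) {n l : ℕ} (hl : l < n) :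
    app (rs x (nS n)) (nS l) = app x (nS l) := by
  refine app_eq (svl_of_isFunc (isFunc_rs hx n)) (pair_mem_rs.2 ⟨?_, nS_mem_nS.2 hl⟩)
  exact pair_app_mem hx (nS_om l)

theorem rs_rs (x : V) {m n : ℕ} (h : m ≤ n) : rs (rs x (nS n)) (nS m) = rs x (nS m) := by
  ext z
  unfold rs
  rw [ZFSet.mem_sep, ZFSet.mem_sep, ZFSet.mem_sep]
  constructor
  · rintro ⟨⟨h1, -⟩, h2⟩
    exact ⟨h1, h2⟩
  · rintro ⟨h1, h2⟩
    refine ⟨⟨h1, ?_⟩, h2⟩
    obtain ⟨j, hj, e⟩ := mem_nS.1 h2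
    rw [e]
    exact nS_mem_nS.2 (lt_of_lt_of_le hj h)

end SE.H35AG

namespace SE

open SF H35AG

theorem pf_AG : T_AA → T_AF → T_AG := by
  intro AA AF
  refine ⟨?_, ?_, ?_, ?_, ?_, ?_⟩
  · intro x hx
    refine ⟨svl_of_isFunc hx, dm_func hx, fun n => ⟨app_mem hx (nS_om n), isFunc_rs hx n, ?_,
      fun l hl => app_rs hx hl⟩, fun m n hmn => rs_rs x hmn⟩
    intro z hz
    exact (ZFSet.mem_sep.1 hz).1
  · intro x n b hx hb
    exact sub_iff hx hb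
  · intro x y hx hy h
    exact ext_app hx hy h
  · intro x y hx hy h
    refine ext_app hx hy fun n => ?_
    obtain ⟨m, hm, e⟩ := h (n + 1)
    rw [← app_rs hx (Nat.lt_of_succ_le hm), e, app_rs hy (Nat.lt_of_succ_le hm)]
  · intro C hC hch hun
    have hsub : ∀ b ∈ C, b ⊆ (⋃₀ C : ZFSet) := by
      intro b hb z hz
      exact ZFSet.mem_sUnion.2 ⟨b, hb, hz⟩
    refine ⟨⟨?_, ?_⟩, hsub⟩
    · intro z hz
      obtain ⟨b, hb, hzb⟩ := ZFSet.mem_sUnion.1 hz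
      obtain ⟨m, hm⟩ := (AF.1 b).1 (hC hb)
      obtain ⟨a, ha, c, hc, rfl⟩ := ZFSet.mem_prod.1 (hm.1 hzb)
      exact ZFSet.pair_mem_prod.2 ⟨nS_sub m ha, hc⟩
    · intro z hz
      obtain ⟨n, rfl⟩ := mem_om.1 hz
      obtain ⟨m, b, hm, hb, hbC⟩ := hun (n + 1)
      have hn : nS n ∈ nS m := SF.nS_mem_nS.2 (Nat.lt_of_succ_le hm)
      have h1 := pair_app_mem hb hn
      refine ⟨app b (nS n), hsub b hbC h1, fun u hu => ?_⟩
      obtain ⟨c, hc, hzc⟩ := ZFSet.mem_sUnion.1 hu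
      obtain ⟨k, hk⟩ := (AF.1 c).1 (hC hc)
      rcases hch b hbC c hc with h | h
      · exact svl_of_isFunc hk _ _ _ hzc (h h1)
      · exact svl_of_isFunc hb _ _ _ (h hzc) h1
  · intro F hF
    refine ⟨isFunc_resS om hf F ?_, fun n => app_resS (nS_om n)⟩
    intro x hx
    obtain ⟨n, rfl⟩ := mem_om.1 hx
    exact hF n

end SE
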