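import Pool.Agent.H38.SE.TarC

/-! # Part C, row CG: countable closure on types -/

set_option linter.unusedVariables false

open Ordinal Order Set
open scoped ZFSet

namespace SE.H35CG

open SF SE

/-- the vector of the parameters -/
noncomputable def vc (X U g h : V) : ℕ → V := cons X (cons U (cons g (cons h fun _ => X)))

theorem vc_in {M : V → Prop} {X U g h : V} (hX : M X) (hU : M U) (hg : M g) (hh : M h) :
    In M (vc X U g h) := by
  intro i
  unfold vc
  rcases i with _ | _ | _ | _ | i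
  · exact hX
  · exact hU
  · exact hg
  · exact hh
  · exact hX

/-- the set of the types below `e` -/
noncomputable def Ue (U g e : V) : V := U.sep fun T => app g T ⊆ e

/-- the value of `Ψ` -/
noncomputable def ps (X U g h e : V) : V :=
  (⋃₀ (imS (Ue U g e) fun T => app h T) : ZFSet) ∩ X

theorem tmUe : Tm ZFm (fun _ w => Ue (w 2) (w 3) (w 0)) := by
  refine (Tm.sep (R := fun _ u => app (u 4) (u 0) ⊆ u 1) (f := fun _ w => w 2)
    (Dfb.subset (Tm.app (Tm.var 4) (Tm.var 0)) (Tm.var 1)) (Tm.var 2)).congr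
    fun M k v hv => rfl

theorem tmps : Tm ZFm (fun _ w => ps (w 1) (w 2) (w 3) (w 4) (w 0)) := by
  refine (Tm.inter (Tm.sUnion (Tm.image (f := fun _ w => Ue (w 2) (w 3) (w 0))
    (g := fun _ u => app (u 5) (u 0)) tmUe (Tm.app (Tm.var 5) (Tm.var 0)))) (Tm.var 1)).congr
    fun M k v hv => rfl

theorem tmPsi (AB : T_AB) : Tm ZFm (fun _ v => resS (Fs (v 0)) fun e =>
    ps (v 0) (v 1) (v 2) (v 3) e) :=
  (Tm.resS (f := fun _ v => Fs (v 0)) (g := fun _ w => ps (w 1) (w 2) (w 3) (w 4) (w 0))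
    AB.2.1 tmps).congr fun M k v hv => rfl

theorem tmf : Tm ZFm (fun _ w => resS (Ue (w 2) (w 3) (w 0)) fun T => app (w 4) T) :=
  (Tm.resS (f := fun _ w => Ue (w 2) (w 3) (w 0)) (g := fun _ u => app (u 5) (u 0)) tmUe
    (Tm.app (Tm.var 5) (Tm.var 0))).congr fun M k v hv => rfl

end SE.H35CG

namespace SE

open SF H35CG

theorem pf_CG : T_AB → T_AC → T_AD → T_AE → T_CG := by
  intro AB AC AD AE M hM X U g h hX hU hg hh h1 h2 h3
  have k : ZFm M := hM.toZFm
  have hv := vc_in hX hU hg hh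
  have hΨ : M (resS (Fs X) fun e => ps X U g h e) := by
    have h0 := (tmPsi AB).1 M k _ hv
    simp only [vc, cons_zero, cons_succ] at h0
    exact h0
  have hMe : ∀ e ∈ Fs X, M e := by
    intro e he
    obtain ⟨he1, he2⟩ := (AB.1 X e).1 he
    exact (AB.2.2 M k X e hX he1 he2).1
  have hin : ∀ e, M e → In M (cons e (vc X U g h)) := by
    intro e he i
    cases i with
    | zero => exact he
    | succ i => exact hv i
  have hps : ∀ e ∈ Fs X, app (resS (Fs X) fun e => ps X U g h e) e = ps X U g h e :=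
    fun e he => app_resS he
  have hct : ∀ e ∈ Fs X, Ctbl M (ps X U g h e) := by
    intro e he
    have hw := hin e (hMe e he)
    have hf : M (resS (Ue U g e) fun T => app h T) := by
      have h0 := tmf.1 M k _ hw
      simp only [vc, cons_zero, cons_succ] at h0
      exact h0
    have hp : M (ps X U g h e) := by
      have h0 := tmps.1 M k _ hw
      simp only [vc, cons_zero, cons_succ] at h0
      exact h0
    obtain ⟨-, c2, -, -, -, c6⟩ := AC M k
    have hrg : rg (resS (Ue U g e) fun T => app h T) = imS (Ue U g e) fun T => app h T := by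
      ext y
      rw [mem_rg, mem_imS]
      constructor
      · rintro ⟨x, hx⟩
        obtain ⟨hx1, hx2⟩ := pair_mem_resS.1 hx
        exact ⟨x, hx1, hx2.symm⟩
      · rintro ⟨x, hx, rfl⟩
        exact ⟨x, pair_mem_resS.2 ⟨hx, rfl⟩⟩
    have hS : Ctbl M (imS (Ue U g e) fun T => app h T) := by
      rw [← hrg]
      refine c6 (Ue U g e) _ hf (svl_resS _ _) (h3 e he) ?_
      rw [dm_resS]
    have hSU : Ctbl M (⋃₀ (imS (Ue U g e) fun T => app h T) : ZFSet) := by
      refine AD M hM _ hS ?_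
      intro x hx
      obtain ⟨T, hT, rfl⟩ := mem_imS.1 hx
      exact h2 T (ZFSet.mem_sep.1 hT).1
    refine c2 _ _ hp hSU ?_
    intro z hz
    exact (ZFSet.mem_inter.1 hz).1
  obtain ⟨Y, hY1, -, hY2, hY3⟩ := AE M hM X _ hX hΨ (by
    intro e he
    rw [hps e he]
    refine ⟨?_, hct e he⟩
    intro z hz
    exact (ZFSet.mem_inter.1 hz).2) ∅ (ZFSet.empty_subset X) (Or.inl rfl)
  refine ⟨Y, hY1, hY2, fun T hT hTY => ?_⟩
  obtain ⟨he1, he2⟩ := (AB.1 X _).1 (h1 T hT)
  have he : app g T ∈ Fs Y := (AB.1 Y _).2 ⟨hTY, he2⟩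
  have h4 := hY3 _ he
  rw [hps _ (h1 T hT)] at h4
  intro z hz
  obtain ⟨hz1, hz2⟩ := ZFSet.mem_inter.1 hz
  refine h4 (ZFSet.mem_inter.2 ⟨ZFSet.mem_sUnion.2 ⟨app h T, ?_, hz1⟩, hz2⟩)
  exact mem_imS.2 ⟨T, ZFSet.mem_sep.2 ⟨hT, fun _ hx => hx⟩, rfl⟩

end SE
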