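import Pool.Agent.H45.SE.TarT

/-! # Part T: inverse isomorphisms (module TBe) -/

set_option linter.unusedVariables false

open Ordinal Order Set
open scoped ZFSet

namespace SE

open SF

theorem pf_TBe : T_BA → T_BC → T_BD → T_TBa → T_TBd → T_TBb → T_TBe := by
  intro hBA hBC hBD hTBa hTBd hTBb L π ρ ρ' p hρ hρ' hI
  obtain ⟨hinj, hmap, him, hmp, hb1, hb2, -, hb4⟩ := hTBb L π ρ ρ' p hρ hρ' hI
  obtain ⟨-, -, -, -, hd5⟩ := hTBd π ρ ρ' hI.fn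
  obtain ⟨d1, d2, d3, d4, d5, d6, d7, d8, d9⟩ := hd5 hinj hI.onto
  have hpos := hBC.2.2.2.1
  have hpF := (hpos L ρ p).1 hI.pp
  have hTr := (hBA.2.2.2.2.2.2 L ρ hρ)
  have hsub : ∀ i ∈ ρ, lS i ⊆ ρ := fun i hi => (hρ i hi).2
  have hTrS : ∀ i ∈ ρ, Tr (lS i) := by
    intro i hi k hk
    exact ((hTr.2.1 i hi).2.2.1 k hk).2
  -- lifting of conditions
  have key : ∀ i ∈ ρ, ∀ q' ∈ Pos L (lS (app π i)), Le q' (rst (lS (app π i)) (mv π p)) →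
      ∃ q ∈ Pos L (lS i), Le q (rst (lS i) p) ∧ mv π q = q' ∧ mv (inv π) q' = q := by
    intro i hi q' hq' hle
    obtain ⟨c1, c2, c3, c4, c5, c6⟩ := hb4 (lS i) (hsub i hi) (hTrS i hi)
    obtain ⟨-, -, -, -, -, e2, -, -⟩ := hTBb L _ _ _ _ c1 c2 c4
    have hag := (hTBa.2.2.2.1 (rst (lS i) π) π (lS i) c6).2
    have hr : rst (im π (lS i)) (mv π p) = mv π (rst (lS i) p) :=
      (hTBa.1 π ρ hinj p hpF.1 hpF.2.1).2.2.2.2 (lS i) (hsub i hi)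
    have hrF := hBC.2.2.2.2.1 (lS i) p hpF.1
    have hrd : dm (rst (lS i) p) ⊆ lS i := fun k hk => ((hrF.2.1 k).1 hk).2
    rw [hI.sup i hi] at hq' hle
    rw [hr, ← hag _ hrF.1 hrd] at hle
    obtain ⟨q, hq, hqle, hqm⟩ := e2 q' hq' hle
    have hqF := (hpos L (lS i) q).1 hq
    rw [hag q hqF.1 hqF.2.1] at hqm
    refine ⟨q, hq, hqle, hqm, ?_⟩
    rw [← hqm]
    exact (d7 q hqF.1 (fun k hk => hsub i hi (hqF.2.1 hk))).2
  refine ⟨?_, (d7 p hpF.1 hpF.2.1).2, d4, ?_, d5, d6, ?_⟩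
  · refine ⟨d2, d3, fun i hi => ⟨app π i, hmap i hi, d5 i hi⟩, ?_, hmp, ?_⟩
    · intro j hj
      obtain ⟨i, hi, rfl⟩ := hI.onto j hj
      rw [d5 i hi, hI.sup i hi, (d9 (lS i) (hsub i hi)).1]
    · intro j hj q' hq' hle b
      obtain ⟨i, hi, rfl⟩ := hI.onto j hj
      obtain ⟨q, hq, hqle, hqm, hqi⟩ := key i hi q' hq' hle
      rw [d5 i hi, hqi, ← hqm]
      exact (hI.ag i hi q hq hqle b).symm
  · intro hZ j hj q' hq' hle b
    obtain ⟨i, hi, rfl⟩ := hI.onto j hj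
    obtain ⟨q, hq, hqle, hqm, hqi⟩ := key i hi q' hq' hle
    rw [d5 i hi, hqi, ← hqm]
    exact (hZ i hi q hq hqle b).symm
  · intro s hs hid
    refine ⟨fun i hi => ?_, (d9 s hs).2 hid⟩
    rw [← hid i hi]
    exact hmap i (hs hi)

end SE
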